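import Pool.Agent.V11307.D8.Del

set_option autoImplicit false

/-!
# The product form of the Gaussian binomials, and `q ↦ 1/q`
-/

namespace Pool.Agent.V11307.D8

open Finset

variable {K : Type*} [Field K] (x : K)

/-- the Gaussian binomial coefficient -/
def gbin (n k : ℕ) : K := if k ≤ n then ∏ i ∈ Icc 1 k, (1 - x^(n-k+i)) / (1 - x^i) else 0

/-- `D_x(m,n)` -/
def Dl (m n : ℕ) : K := ∑ k ∈ range (n+1), x^(k*(k-1)/2) * gbin x n k * gbin x (n+m-k) n

variable {x} (hx : ∀ i : ℕ, 1 - x^(i+1) ≠ 0)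

include hx

lemma gbin_eq (n k : ℕ) : gbin x n k = G x n k := by
  rw [gbin]
  split_ifs with h
  · obtain ⟨d, rfl⟩ := Nat.exists_eq_add_of_le h
    rw [Nat.add_sub_cancel_left, G_eq hx, prod_div_distrib]
    have e1 : ∀ k : ℕ, ∏ i ∈ Icc 1 k, (1 - x^i) = fac x k := by
      intro k
      induction k with
      | zero => simp [fac]
      | succ k ih => rw [Finset.prod_Icc_succ_top (by omega), ih, fac_succ]
    have e2 : ∀ k : ℕ, fac x d * ∏ i ∈ Icc 1 k, (1 - x^(d+i)) = fac x (k+d) := by
      intro k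
      induction k with
      | zero => simp
      | succ k ih =>
        rw [Finset.prod_Icc_succ_top (by omega), ← mul_assoc, ih, show k+1+d = k+d+1 by ring, fac_succ,
          show d+(k+1) = k+d+1 by ring]
    rw [e1, ← e2 k]
    have := fac_ne hx k
    have := fac_ne hx d
    field_simp
  · rw [G_eq_zero x n k (by omega)]

variable (h0 : x ≠ 0)

include h0

lemma hx_inv : ∀ i : ℕ, 1 - x⁻¹^(i+1) ≠ 0 := by
  intro i h
  apply hx i
  have n1 : x^(i+1) ≠ 0 := pow_ne_zero _ h0
  rw [inv_pow] at h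
  have : (x^(i+1))⁻¹ = 1 := by linear_combination -h
  rw [inv_eq_one] at this
  rw [this]; ring

lemma gbin_inv (n k : ℕ) (h : k ≤ n) : gbin x⁻¹ n k = gbin x n k / x^(k*(n-k)) := by
  rw [gbin, if_pos h, gbin, if_pos h]
  have e : ∀ i ∈ Icc 1 k, (1 - x⁻¹^(n-k+i)) / (1 - x⁻¹^i) = (1 - x^(n-k+i)) / (1 - x^i) * (1 / x^(n-k)) := by
    intro i hi
    rw [mem_Icc] at hi
    obtain ⟨j, rfl⟩ : ∃ j, i = j + 1 := ⟨i-1, by omega⟩
    have n1 : x^(j+1) ≠ 0 := pow_ne_zero _ h0
    have n2 : x^(n-k) ≠ 0 := pow_ne_zero _ h0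
    have n3 := hx j
    have n4 : x^(j+1) - 1 ≠ 0 := by
      intro h
      apply n3
      linear_combination -h
    rw [inv_pow, inv_pow, pow_add x (n-k)]
    have e1 : (1 - (x^(n-k) * x^(j+1))⁻¹) = - (1 - x^(n-k) * x^(j+1)) / (x^(n-k) * x^(j+1)) := by
      field_simp
      ring
    have e2 : (1 - (x^(j+1))⁻¹) = - (1 - x^(j+1)) / x^(j+1) := by
      field_simp
      ring
    rw [e1, e2]
    field_simp
  rw [prod_congr rfl e, prod_mul_distrib, prod_const, Nat.card_Icc, show k + 1 - 1 = k by omega, one_div, inv_pow,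
    ← pow_mul, mul_comm (n-k) k, ← div_eq_mul_inv]

omit h0 in
lemma Dl_eq (m n : ℕ) : Dl x m n = a x n m := by
  have e1 : Dl x m n = ∑ k ∈ range (m+n+1), (if k ≤ m then x^(tr k) * G x n k * G x (n+(m-k)) n else 0) := by
    rw [Dl]
    have : ∀ k ∈ range (n+1), x^(k*(k-1)/2) * gbin x n k * gbin x (n+m-k) n =
        (if k ≤ m then x^(tr k) * G x n k * G x (n+(m-k)) n else 0) := by
      intro k hk
      rw [mem_range] at hk
      rw [gbin_eq hx, gbin_eq hx, tr_eq]
      split_ifs with h
      · rw [show n+m-k = n+(m-k) by omega]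
      · rw [G_eq_zero x (n+m-k) n (by omega)]
        ring
    rw [sum_congr rfl this]
    apply sum_subset
    · intro k; simp; omega
    · intro k _ hk
      simp only [mem_range, not_lt] at hk
      rw [G_eq_zero x n k (by omega)]
      simp
  have e2 : a x n m = ∑ k ∈ range (m+n+1), (if k ≤ m then x^(tr k) * G x n k * G x (n+(m-k)) n else 0) := by
    rw [a]
    have : ∀ k ∈ range (m+1), x^(tr k) * G x n k * G x (n+(m-k)) n =
        (if k ≤ m then x^(tr k) * G x n k * G x (n+(m-k)) n else 0) := by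
      intro k hk
      rw [mem_range] at hk
      rw [if_pos (by omega)]
    rw [sum_congr rfl this]
    apply sum_subset
    · intro k; simp; omega
    · intro k _ hk
      simp only [mem_range, not_lt] at hk
      rw [if_neg (by omega)]
  rw [e1, e2]

lemma Dl_inv (m n : ℕ) : Dl x⁻¹ m n = b x n m / x^(m*n) := by
  have e1 : Dl x⁻¹ m n = ∑ k ∈ range (m+n+1), (if k ≤ m then x^(tr (k+1)) * G x n k * G x (n+(m-k)) n / x^(m*n) else 0) := by
    rw [Dl]
    have : ∀ k ∈ range (n+1), x⁻¹^(k*(k-1)/2) * gbin x⁻¹ n k * gbin x⁻¹ (n+m-k) n =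
        (if k ≤ m then x^(tr (k+1)) * G x n k * G x (n+(m-k)) n / x^(m*n) else 0) := by
      intro k hk
      rw [mem_range] at hk
      split_ifs with h
      · rw [gbin_inv hx h0 n k (by omega), gbin_inv hx h0 (n+m-k) n (by omega), gbin_eq hx, gbin_eq hx, ← tr_eq]
        obtain ⟨c, rfl⟩ := Nat.exists_eq_add_of_le h
        obtain ⟨d, rfl⟩ := Nat.exists_eq_add_of_le (show k ≤ n by omega)
        rw [show k+d+(k+c)-k = k+d+c by omega, show k+d-k = d by omega, show k+c-k = c by omega,
          show k+d+c-(k+d) = c by omega, show tr (k+1) = tr k + k from rfl, inv_pow]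
        have e3 : x^((k+c)*(k+d)) = x^(k*d) * x^((k+d)*c) * x^(tr k) * x^(tr k + k) := by
          have : tr k + tr k + k = k * k := by
            clear h hk
            induction k with
            | zero => rfl
            | succ k ih => rw [tr]; linarith
          rw [← pow_add, ← pow_add, ← pow_add]
          congr 1
          nlinarith
        have n1 : x^((k+c)*(k+d)) ≠ 0 := pow_ne_zero _ h0
        have n2 : x^(k*d) ≠ 0 := pow_ne_zero _ h0
        have n3 : x^((k+d)*c) ≠ 0 := pow_ne_zero _ h0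
        have n4 : x^(tr k) ≠ 0 := pow_ne_zero _ h0
        generalize x^((k+c)*(k+d)) = Y1 at *
        generalize x^(k*d) = Y2 at *
        generalize x^((k+d)*c) = Y3 at *
        generalize x^(tr k + k) = Y5 at *
        generalize x^(tr k) = Y4 at *
        have e5 : Y5 = Y1 / (Y2 * Y3 * Y4) := by
          rw [eq_div_iff (mul_ne_zero (mul_ne_zero n2 n3) n4)]
          linear_combination -e3
        rw [e5]
        field_simp
      · rw [gbin_eq (hx_inv hx h0) (n+m-k) n, G_eq_zero x⁻¹ (n+m-k) n (by omega)]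
        ring
    rw [sum_congr rfl this]
    apply sum_subset
    · intro k; simp; omega
    · intro k _ hk
      simp only [mem_range, not_lt] at hk
      rw [G_eq_zero x n k (by omega)]
      simp
  have e2 : b x n m / x^(m*n) = ∑ k ∈ range (m+n+1), (if k ≤ m then x^(tr (k+1)) * G x n k * G x (n+(m-k)) n / x^(m*n) else 0) := by
    rw [b, sum_div]
    have : ∀ k ∈ range (m+1), x^(tr (k+1)) * G x n k * G x (n+(m-k)) n / x^(m*n) =
        (if k ≤ m then x^(tr (k+1)) * G x n k * G x (n+(m-k)) n / x^(m*n) else 0) := by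
      intro k hk
      rw [mem_range] at hk
      rw [if_pos (by omega)]
    rw [sum_congr rfl this]
    apply sum_subset
    · intro k; simp; omega
    · intro k _ hk
      simp only [mem_range, not_lt] at hk
      rw [if_neg (by omega)]
  rw [e1, e2]

end Pool.Agent.V11307.D8
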