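import Pool.Agent.V11307.D8.Gauss

set_option autoImplicit false

/-!
# `q`-Delannoy numbers
-/

namespace Pool.Agent.V11307.D8

open Finset

variable {K : Type*} [Field K] (x : K)

/-- triangular numbers `k (k-1) / 2` -/
def tr : ℕ → ℕ
  | 0 => 0
  | k+1 => tr k + k

lemma tr_eq (k : ℕ) : tr k = k*(k-1)/2 := by
  induction k with
  | zero => rfl
  | succ k ih =>
    rw [tr, ih]
    rw [Nat.add_sub_cancel]
    rcases Nat.eq_zero_or_pos k with rfl | h
    · rfl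
    · obtain ⟨j, rfl⟩ : ∃ j, k = j+1 := ⟨k-1, by omega⟩
      rw [Nat.add_sub_cancel, show (j+1+1)*(j+1) = (j+1)*j + (j+1)*2 by ring, Nat.add_mul_div_right _ _ (by norm_num)]

/-- `D_q(m,n)` -/
def a (n m : ℕ) : K := ∑ k ∈ range (m+1), x^(tr k) * G x n k * G x (n+(m-k)) n

/-- `q^{mn} D_{1/q}(m,n)` -/
def b (n m : ℕ) : K := ∑ k ∈ range (m+1), x^(tr (k+1)) * G x n k * G x (n+(m-k)) n

/-- the auxiliary sum, `n = ν + 1` -/
def c (ν m : ℕ) : K := ∑ k ∈ range (m+1), x^(tr (k+1)) * G x ν k * G x (ν+1+(m-k)) (ν+1)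

variable {x} (hx : ∀ i : ℕ, 1 - x^(i+1) ≠ 0)

lemma a_c (ν m : ℕ) : a x (ν+1) (m+1) = c x ν (m+1) + c x ν m := by
  rw [a, c, sum_range_succ', sum_range_succ' (fun k => x^(tr (k+1)) * G x ν k * G x (ν+1+(m+1-k)) (ν+1)), c]
  have e : ∑ k ∈ range (m+1), x^(tr (k+1)) * G x (ν+1) (k+1) * G x (ν+1+(m+1-(k+1))) (ν+1) =
      ∑ k ∈ range (m+1), x^(tr (k+1+1)) * G x ν (k+1) * G x (ν+1+(m+1-(k+1))) (ν+1) +
      ∑ k ∈ range (m+1), x^(tr (k+1)) * G x ν k * G x (ν+1+(m-k)) (ν+1) := by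
    rw [← sum_add_distrib]
    apply sum_congr rfl
    intro k _
    rw [show m + 1 - (k+1) = m - k by omega, G_succ, show tr (k+1+1) = tr (k+1) + (k+1) from rfl, pow_add x (tr (k+1))]
    ring
  rw [e]
  simp only [G_zero, tr]
  ring

include hx

lemma b_c (ν m : ℕ) : b x (ν+1) (m+1) = c x ν (m+1) + x^(ν+1) * c x ν m := by
  rw [b, c, sum_range_succ', sum_range_succ' (fun k => x^(tr (k+1)) * G x ν k * G x (ν+1+(m+1-k)) (ν+1)), c]
  have e : ∑ k ∈ range (m+1), x^(tr (k+1+1)) * G x (ν+1) (k+1) * G x (ν+1+(m+1-(k+1))) (ν+1) =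
      ∑ k ∈ range (m+1), x^(tr (k+1+1)) * G x ν (k+1) * G x (ν+1+(m+1-(k+1))) (ν+1) +
      x^(ν+1) * ∑ k ∈ range (m+1), x^(tr (k+1)) * G x ν k * G x (ν+1+(m-k)) (ν+1) := by
    rw [mul_sum, ← sum_add_distrib]
    apply sum_congr rfl
    intro k _
    rw [show m + 1 - (k+1) = m - k by omega]
    rcases Nat.lt_or_ge ν k with h | h
    · rw [G_eq_zero x ν k h, G_eq_zero x ν (k+1) (by omega), G_eq_zero x (ν+1) (k+1) (by omega)]
      ring
    · rw [G_succ' hx ν k h]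
      have e1 : x^(tr (k+1+1)) * x^(ν-k) = x^(ν+1) * x^(tr (k+1)) := by
        rw [← pow_add, ← pow_add, show tr (k+1+1) = tr (k+1) + (k+1) from rfl]
        congr 1
        omega
      linear_combination G x ν k * G x (ν+1+(m-k)) (ν+1) * e1
  rw [e]
  simp only [G_zero, tr]
  ring

lemma b_c' (ν m : ℕ) : b x ν (m+1) = c x ν (m+1) - x^(ν+1) * c x ν m := by
  rw [eq_sub_iff_add_eq, b, c, c, sum_range_succ, sum_range_succ _ (m+1), mul_sum, add_right_comm, ← sum_add_distrib]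
  congr 1
  · apply sum_congr rfl
    intro k hk
    rw [mem_range] at hk
    obtain ⟨d, rfl⟩ := Nat.exists_eq_add_of_le (show k ≤ m by omega)
    rw [show k+d+1-k = d+1 by omega, show k+d-k = d by omega, show ν+1+(d+1) = (ν+(d+1))+1 by ring,
      G_succ x (ν+(d+1)) ν, show ν+1+d = ν+(d+1) by ring]
    ring
  · rw [Nat.sub_self, add_zero, add_zero, G_self hx, G_self hx]

lemma a_c' (ν m : ℕ) : x^(m+1) * a x ν (m+1) = c x ν (m+1) - c x ν m := by
  rw [eq_sub_iff_add_eq, a, c, c, sum_range_succ, sum_range_succ _ (m+1), mul_add, mul_sum, add_right_comm,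
    ← sum_add_distrib]
  congr 1
  · apply sum_congr rfl
    intro k hk
    rw [mem_range] at hk
    obtain ⟨d, rfl⟩ := Nat.exists_eq_add_of_le (show k ≤ m by omega)
    rw [show k+d+1-k = d+1 by omega, show k+d-k = d by omega, show ν+1+(d+1) = (ν+(d+1))+1 by ring,
      G_succ' hx (ν+(d+1)) ν (by omega), show ν+(d+1)-ν = d+1 by omega, show ν+1+d = ν+(d+1) by ring,
      show tr (k+1) = tr k + k from rfl]
    have e : x^(k+d+1) * x^(tr k) = x^(tr k + k) * x^(d+1) := by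
      rw [← pow_add, ← pow_add]; congr 1; ring
    linear_combination G x ν k * G x (ν+(d+1)) ν * e
  · rw [Nat.sub_self, add_zero, add_zero, G_self hx, G_self hx, show tr (m+1+1) = tr (m+1) + (m+1) from rfl, pow_add]
    ring

omit hx in
lemma c_zero (ν : ℕ) (hx : ∀ i : ℕ, 1 - x^(i+1) ≠ 0) : c x ν 0 = 1 := by
  rw [c, zero_add, sum_range_one]
  simp [tr, G_self hx]

lemma a_zero (n : ℕ) : a x n 0 = 1 := by
  rw [a, zero_add, sum_range_one]
  simp [tr, G_self hx]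

lemma b_zero (n : ℕ) : b x n 0 = 1 := by
  rw [b, zero_add, sum_range_one]
  simp [tr, G_self hx]

omit hx in
lemma a_zero' (m : ℕ) : a x 0 m = 1 := by
  rw [a, sum_range_succ']
  simp only [tr, G_zero, pow_zero, one_mul, mul_one]
  rw [sum_eq_zero, zero_add]
  intro k _
  rw [G_eq_zero x 0 (k+1) (by omega)]
  ring

omit hx in
lemma b_zero' (m : ℕ) : b x 0 m = 1 := by
  rw [b, sum_range_succ']
  simp only [tr, G_zero, mul_one, add_zero, pow_zero]
  rw [sum_eq_zero, zero_add]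
  intro k _
  rw [G_eq_zero x 0 (k+1) (by omega)]
  ring

/-- the three term recurrence -/
lemma c_rec (ν m : ℕ) : (1 - x^(m+2)) * (c x ν (m+2) - x^(ν+1) * c x ν m) =
    (1 - x^(ν+1)) * (1 + x^(m+2)) * c x ν (m+1) := by
  have h1 := a_c (x := x) ν m
  have h2 := b_c hx ν m
  have h3 := b_c' hx (ν+1) m
  have h4 := a_c' hx (ν+1) m
  have h5 := a_c (x := x) ν (m+1)
  have h6 := b_c hx ν (m+1)
  have h7 := b_c' hx (ν+1) (m+1)
  have h8 := a_c' hx (ν+1) (m+1)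
  rw [h1] at h4
  rw [h2] at h3
  rw [h5] at h8
  rw [h6] at h7
  have e1 : x^(ν+1+1) = x^(ν+1) * x := by rw [pow_succ]
  have e2 : x^(m+2) = x^(m+1) * x := by rw [← pow_succ]
  have e3 : x^(m+1+1) = x^(m+1) * x := by rw [← pow_succ]
  rw [e1] at h3 h7
  rw [e3] at h8
  rw [show m+1+1 = m+2 by ring] at h7 h8
  rw [e2]
  linear_combination h7 - h8 - h3 + x^(ν+1) * x * h4

lemma c_one (ν : ℕ) : (1 - x) * c x ν 1 = (1 - x^(ν+1)) * (1 + x) := by
  have h2 := b_c hx ν 0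
  have h1 := a_c (x := x) ν 0
  have h3 := b_c' hx (ν+1) 0
  have h4 := a_c' hx (ν+1) 0
  rw [h1] at h4
  rw [h2] at h3
  rw [c_zero _ hx] at h3 h4
  rw [c_zero _ hx] at h3 h4
  rw [pow_succ] at h3
  rw [zero_add] at h3 h4
  rw [pow_one] at h4
  linear_combination h3 - h4

end Pool.Agent.V11307.D8
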