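import Pool.Agent.V11307.D8.Pos

set_option autoImplicit false

/-!
# Positivity of the three sums, for an element of a field
-/

namespace Pool.Agent.V11307.D8

open Finset

variable {K : Type*} [Field K] (x : K)

/-- positive combinations of the `e_j`, on `k < n` -/
def Comb (n : ℕ) (f : ℕ → K) : Prop :=
  ∃ (L : ℕ) (α : ℕ → K), (∀ j, Pos x (α j)) ∧ ∀ k < n, f k = ∑ j ∈ range L, α j * ee x j k

/-- the product of the two `q`-Delannoy numbers -/
def PP (m k : ℕ) : K := a x k m * b x k m / x^(m*k)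

variable {x} (hx : ∀ i : ℕ, 1 - x^(i+1) ≠ 0) (h0 : x ≠ 0)

include hx h0

lemma PP_eq (m n : ℕ) : ∀ k < n, PP x m k = ∑ j ∈ range n, ga x j * ee x j m * ee x j k := by
  intro k hk
  obtain ⟨N, rfl⟩ : ∃ N, n = N + 1 := ⟨n-1, by omega⟩
  rw [PP, expand hx h0 m N k (by omega), sum_range_succ', ga, ee_zero' hx, ee_zero' hx]
  ring

lemma combPP (m n : ℕ) : Comb x n (PP x m) :=
  ⟨n, fun j => ga x j * ee x j m, fun j => Pos.alpha hx h0 m j, PP_eq hx h0 m n⟩

omit h0 in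
lemma Comb.one (n : ℕ) : Comb x n (fun _ => 1) :=
  ⟨1, fun _ => 1, fun _ => Pos.one, fun k _ => by rw [sum_range_one, ee_zero' hx]; ring⟩

lemma Comb.mul {n : ℕ} {f g : ℕ → K} (hf : Comb x n f) (hg : Comb x n g) : Comb x n (fun k => f k * g k) := by
  obtain ⟨L, α, hα, hf⟩ := hf
  obtain ⟨M, β, hβ, hg⟩ := hg
  refine ⟨L + M, fun s => ∑ i ∈ range L, ∑ j ∈ range M, α i * β j * cc x i j s, ?_, ?_⟩
  · intro s
    exact Pos.sum _ _ fun i _ => Pos.sum _ _ fun j _ => ((hα i).mul (hβ j)).mul (Pos.cc hx h0 i j s)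
  · intro k hk
    simp only [hf k hk, hg k hk, sum_mul_sum]
    have : ∀ i ∈ range L, ∑ j ∈ range M, α i * ee x i k * (β j * ee x j k) =
        ∑ s ∈ range (L+M), (∑ j ∈ range M, α i * β j * cc x i j s) * ee x s k := by
      intro i hi
      rw [mem_range] at hi
      have : ∀ j ∈ range M, α i * ee x i k * (β j * ee x j k) =
          ∑ s ∈ range (L+M), α i * β j * cc x i j s * ee x s k := by
        intro j hj
        rw [mem_range] at hj
        have h1 := linearize hx h0 i k j (L+M) (by omega)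
        have h2 : α i * ee x i k * (β j * ee x j k) = α i * β j * (ee x i k * ee x j k) := by ring
        rw [h2, h1, mul_sum]
        apply sum_congr rfl
        intro s _
        ring
      rw [sum_congr rfl this, sum_comm]
      apply sum_congr rfl
      intro s _
      rw [sum_mul]
    rw [sum_congr rfl this, sum_comm]
    apply sum_congr rfl
    intro s _
    rw [sum_mul]

lemma Comb.pow {n : ℕ} {f : ℕ → K} (hf : Comb x n f) (r : ℕ) : Comb x n (fun k => f k ^ r) := by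
  induction r with
  | zero => simpa using Comb.one hx n
  | succ r ih => simpa [pow_succ] using Comb.mul hx h0 ih hf

lemma Comb.B {n : ℕ} (hn : 0 < n) {f : ℕ → K} (hf : Comb x n f) :
    Pos x (1 / (1 - x^n) * ∑ k ∈ range n, (1 - x^(2*k+1)) * (1 / x^k) * f k) := by
  obtain ⟨L, α, hα, hf⟩ := hf
  have e1 : ∑ k ∈ range n, (1 - x^(2*k+1)) * (1 / x^k) * f k =
      ∑ j ∈ range L, α j * ((1 - x^n) * (G x (n+j) j * G x n (j+1) * (x^(j+1) / x^((j+1)*n)))) := by
    have : ∀ k ∈ range n, (1 - x^(2*k+1)) * (1 / x^k) * f k =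
        ∑ j ∈ range L, α j * ((1 - x^(2*k+1)) * (1 / x^k) * ee x j k) := by
      intro k hk
      rw [mem_range] at hk
      rw [hf k hk, mul_sum]
      apply sum_congr rfl
      intro j _
      ring
    rw [sum_congr rfl this, sum_comm]
    apply sum_congr rfl
    intro j _
    rw [← mul_sum, S1 hx h0]
  rw [e1, mul_sum]
  apply Pos.sum
  intro j _
  obtain ⟨c, rfl⟩ : ∃ c, n = c+1 := ⟨n-1, by omega⟩
  have n1 := hx c
  have : 1 / (1 - x^(c+1)) * (α j * ((1 - x^(c+1)) * (G x (c+1+j) j * G x (c+1) (j+1) * (x^(j+1) / x^((j+1)*(c+1)))))) =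
      α j * (G x (c+1+j) j * G x (c+1) (j+1) * (x^(j+1) / x^((j+1)*(c+1)))) := by
    have n3 : x^((j+1)*(c+1)) ≠ 0 := pow_ne_zero _ h0
    field_simp
  rw [this]
  exact (hα j).mul (((Pos.G _ _).mul (Pos.G _ _)).mul ((Pos.X_pow _).div_pow h0 _))

lemma Comb.C {n : ℕ} (hn : 0 < n) {f : ℕ → K} (hf : Comb x n f) :
    Pos x (1 / (1 - x^n) * ∑ k ∈ range n, (-1)^(n-1-k) * (1 - x^(2*k+1)) * x^(tr k) * f k) := by
  obtain ⟨L, α, hα, hf⟩ := hf
  obtain ⟨c, rfl⟩ : ∃ c, n = c+1 := ⟨n-1, by omega⟩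
  rw [Nat.add_sub_cancel]
  have e1 : ∑ k ∈ range (c+1), (-1)^(c-k) * (1 - x^(2*k+1)) * x^(tr k) * f k =
      ∑ j ∈ range L, α j * ((1 - x^(c+1)) * (G x (c+1+j) j * G x c j * (x^(tr (c+1)) / x^(j*(c+1))))) := by
    have : ∀ k ∈ range (c+1), (-1)^(c-k) * (1 - x^(2*k+1)) * x^(tr k) * f k =
        ∑ j ∈ range L, α j * ((-1)^(c-k) * (1 - x^(2*k+1)) * x^(tr k) * ee x j k) := by
      intro k hk
      rw [mem_range] at hk
      rw [hf k hk, mul_sum]
      apply sum_congr rfl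
      intro j _
      ring
    rw [sum_congr rfl this, sum_comm]
    apply sum_congr rfl
    intro j _
    rw [← mul_sum, S2 hx h0]
  rw [e1, mul_sum]
  apply Pos.sum
  intro j _
  have n1 := hx c
  have : 1 / (1 - x^(c+1)) * (α j * ((1 - x^(c+1)) * (G x (c+1+j) j * G x c j * (x^(tr (c+1)) / x^(j*(c+1)))))) =
      α j * (G x (c+1+j) j * G x c j * (x^(tr (c+1)) / x^(j*(c+1)))) := by
    have n3 : x^(j*(c+1)) ≠ 0 := pow_ne_zero _ h0
    field_simp
  rw [this]
  exact (hα j).mul (((Pos.G _ _).mul (Pos.G _ _)).mul ((Pos.X_pow _).div_pow h0 _))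

/-- the sum `A` -/
lemma posA (m n : ℕ) : Pos x ((1 - x^(m+1)) * (1 - x^(m+2)) / ((1 - x^2) * (1 - x^(n+1))^2) *
    ∑ k ∈ range (n+1), (1 - x^(2*k+1)) * (1 / x^k) * PP x (m+1) k) := by
  have e1 : ∑ k ∈ range (n+1), (1 - x^(2*k+1)) * (1 / x^k) * PP x (m+1) k =
      ∑ j ∈ range (n+1), ga x j * ee x j (m+1) *
        ((1 - x^(n+1)) * (G x (n+1+j) j * G x (n+1) (j+1) * (x^(j+1) / x^((j+1)*(n+1))))) := by
    have : ∀ k ∈ range (n+1), (1 - x^(2*k+1)) * (1 / x^k) * PP x (m+1) k =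
        ∑ j ∈ range (n+1), ga x j * ee x j (m+1) * ((1 - x^(2*k+1)) * (1 / x^k) * ee x j k) := by
      intro k hk
      rw [mem_range] at hk
      rw [PP_eq hx h0 (m+1) (n+1) k hk, mul_sum]
      apply sum_congr rfl
      intro j _
      ring
    rw [sum_congr rfl this, sum_comm]
    apply sum_congr rfl
    intro j _
    rw [← mul_sum, S1 hx h0]
  rw [e1, mul_sum]
  apply Pos.sum
  intro j _
  have n1 := hx n
  have n2 := hx 1
  have nj := hx j
  have h2 := G_absorb hx n j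
  rw [show 1 + 1 = 2 by norm_num] at n2
  have h3 : G x (n+1) (j+1) = (1 - x^(n+1)) * G x n j / (1 - x^(j+1)) := by
    rw [eq_div_iff nj]; linear_combination h2
  have : (1 - x^(m+1)) * (1 - x^(m+2)) / ((1 - x^2) * (1 - x^(n+1))^2) * (ga x j * ee x j (m+1) *
      ((1 - x^(n+1)) * (G x (n+1+j) j * G x (n+1) (j+1) * (x^(j+1) / x^((j+1)*(n+1)))))) =
      (ga x j * ee x j (m+1) * ((1 - x^(m+1)) * (1 - x^(m+2)) / ((1 - x^2) * (1 - x^(j+1))))) *
      (G x (n+1+j) j * G x n j * (x^(j+1) / x^((j+1)*(n+1)))) := by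
    rw [h3]
    have n3 : x^((j+1)*(n+1)) ≠ 0 := pow_ne_zero _ h0
    generalize x^((j+1)*(n+1)) = Z at *
    generalize x^(n+1) = V at *
    generalize x^(j+1) = W at *
    generalize x^(m+1) = V' at *
    generalize x^(m+2) = W' at *
    generalize x^2 = x2 at *
    field_simp
  rw [this]
  exact (Pos.beta hx h0 m j).mul (((Pos.G _ _).mul (Pos.G _ _)).mul ((Pos.X_pow _).div_pow h0 _))

end Pool.Agent.V11307.D8
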