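import Mathlib

set_option autoImplicit false

/-!
# Gaussian binomial coefficients at an element of a field
-/

namespace Pool.Agent.V11307.D8

open Finset

variable {K : Type*} [Field K] (x : K)

/-- `(x;x)_m` -/
def fac (m : ℕ) : K := ∏ i ∈ range m, (1 - x^(i+1))

lemma fac_succ (m : ℕ) : fac x (m+1) = fac x m * (1 - x^(m+1)) := by
  rw [fac, fac, prod_range_succ]

lemma fac_zero : fac x 0 = 1 := by simp [fac]

/-- Gaussian binomial coefficients -/
def G : ℕ → ℕ → K
  | _, 0 => 1
  | 0, _+1 => 0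
  | n+1, j+1 => x^(j+1) * G n (j+1) + G n j

@[simp] lemma G_zero (n : ℕ) : G x n 0 = 1 := by cases n <;> rfl

lemma G_succ (n j : ℕ) : G x (n+1) (j+1) = x^(j+1) * G x n (j+1) + G x n j := rfl

lemma G_eq_zero : ∀ (n j : ℕ), n < j → G x n j = 0 := by
  intro n
  induction n with
  | zero =>
    intro j hj
    obtain ⟨i, rfl⟩ : ∃ i, j = i+1 := ⟨j-1, by omega⟩
    rfl
  | succ n ih =>
    intro j hj
    obtain ⟨i, rfl⟩ : ∃ i, j = i+1 := ⟨j-1, by omega⟩
    rw [G_succ, ih _ (by omega), ih _ (by omega)]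
    ring

lemma G_fac : ∀ (n j : ℕ), j ≤ n → G x n j * (fac x j * fac x (n-j)) = fac x n := by
  intro n
  induction n with
  | zero =>
    intro j hj
    obtain rfl : j = 0 := by omega
    simp [fac_zero]
  | succ n ih =>
    intro j hj
    rcases Nat.eq_zero_or_pos j with rfl | h0
    · simp [fac_zero]
    obtain ⟨i, rfl⟩ : ∃ i, j = i+1 := ⟨j-1, by omega⟩
    rw [G_succ]
    rcases Nat.lt_or_ge n (i+1) with h | h
    · have hi : i = n := by omega
      subst hi
      rw [G_eq_zero x i (i+1) (by omega)]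
      have := ih i le_rfl
      rw [Nat.sub_self, fac_zero] at this
      rw [Nat.sub_self, fac_zero, fac_succ]
      linear_combination (1 - x^(i+1)) * this
    · have h1 := ih (i+1) h
      have h2 := ih i (by omega)
      rw [show n + 1 - (i+1) = n - i by omega]
      obtain ⟨d, rfl⟩ := Nat.exists_eq_add_of_le h
      rw [show i + 1 + d - (i+1) = d by omega] at h1
      rw [show i + 1 + d - i = d + 1 by omega] at h2 ⊢
      rw [fac_succ x (i+1+d)]
      rw [fac_succ x d] at h2 ⊢
      rw [fac_succ x i] at h1 ⊢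
      have e : x^(i+1+d+1) = x^(i+1) * x^(d+1) := by rw [← pow_add]; congr 1
      rw [e]
      linear_combination x^(i+1) * (1 - x^(d+1)) * h1 + (1 - x^(i+1)) * h2

variable {x} (hx : ∀ i : ℕ, 1 - x^(i+1) ≠ 0)

include hx

lemma fac_ne (m : ℕ) : fac x m ≠ 0 := by
  rw [fac, prod_ne_zero_iff]
  intro i _
  exact hx i

lemma G_eq (j d : ℕ) : G x (j+d) j = fac x (j+d) / (fac x j * fac x d) := by
  rw [eq_div_iff (mul_ne_zero (fac_ne hx _) (fac_ne hx _))]
  have := G_fac x (j+d) j (by omega)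
  rwa [show j + d - j = d by omega] at this

lemma G_self (n : ℕ) : G x n n = 1 := by
  have := G_eq hx n 0
  rw [add_zero, fac_zero, mul_one, div_self (fac_ne hx n)] at this
  exact this

/-- absorption -/
lemma G_absorb (n j : ℕ) : (1 - x^(j+1)) * G x (n+1) (j+1) = (1 - x^(n+1)) * G x n j := by
  rcases Nat.lt_or_ge n j with h | h
  · rw [G_eq_zero x n j h, G_eq_zero x (n+1) (j+1) (by omega)]; ring
  · obtain ⟨d, rfl⟩ := Nat.exists_eq_add_of_le h
    rw [show j+d+1 = (j+1)+d by ring, G_eq hx (j+1) d, G_eq hx j d, show j+1+d = (j+d)+1 by ring,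
      fac_succ, fac_succ]
    have h1 := fac_ne hx j
    have h2 := fac_ne hx d
    have h3 := hx j
    field_simp

lemma G_lower (j d : ℕ) : (1 - x^(j+1)) * G x (j+d) (j+1) = (1 - x^d) * G x (j+d) j := by
  rcases Nat.eq_zero_or_pos d with rfl | h
  · rw [G_eq_zero x (j+0) (j+1) (by omega)]; simp
  · obtain ⟨c, rfl⟩ : ∃ c, d = c+1 := ⟨d-1, by omega⟩
    have e : G x (j+(c+1)) (j+1) = fac x (j+(c+1)) / (fac x (j+1) * fac x c) := by
      rw [show j+(c+1) = (j+1)+c by ring, G_eq hx (j+1) c]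
    rw [e, G_eq hx j (c+1), fac_succ x j, fac_succ x c]
    have h1 := fac_ne hx j
    have h2 := fac_ne hx c
    have h3 := hx j
    have h4 := hx c
    field_simp

lemma G_upper (j d : ℕ) : (1 - x^(d+1)) * G x (j+d+1) j = (1 - x^(j+d+1)) * G x (j+d) j := by
  have e : G x (j+d+1) j = fac x (j+d+1) / (fac x j * fac x (d+1)) := by
    rw [show j+d+1 = j+(d+1) by ring, G_eq hx j (d+1)]
  rw [e, G_eq hx j d, fac_succ x (j+d), fac_succ x d]
  have h1 := fac_ne hx j
  have h2 := fac_ne hx d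
  have h4 := hx d
  field_simp

/-- the second Pascal rule -/
lemma G_succ' (n j : ℕ) (h : j ≤ n) : G x (n+1) (j+1) = G x n (j+1) + x^(n-j) * G x n j := by
  obtain ⟨d, rfl⟩ := Nat.exists_eq_add_of_le h
  rw [show j+d-j = d by omega]
  have h1 := G_lower hx j d
  have h2 := G_succ x (j+d) j
  apply mul_left_cancel₀ (hx j)
  linear_combination (1 - x^(j+1)) * h2 - (1-x^(j+1)) * h1 

end Pool.Agent.V11307.D8
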