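import Pool.Agent.V11307.D8.Sys2

set_option autoImplicit false

/-!
# The two sums
-/

namespace Pool.Agent.V11307.D8

open Finset

variable {K : Type*} [Field K] {x : K} (hx : ∀ i : ℕ, 1 - x^(i+1) ≠ 0) (h0 : x ≠ 0)

include hx h0

lemma S1 (j : ℕ) : ∀ n : ℕ, ∑ k ∈ range n, (1 - x^(2*k+1)) * (1 / x^k) * ee x j k =
    (1 - x^n) * (G x (n+j) j * G x n (j+1) * (x^(j+1) / x^((j+1)*n))) := by
  intro n
  induction n with
  | zero => simp
  | succ n ih =>
    rw [sum_range_succ, ih]
    have h1 := G_up hx n j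
    have h2 := G_absorb hx n j
    have h3 := G_lower' hx n j
    have nN : x^n ≠ 0 := pow_ne_zero _ h0
    have nJ : x^j ≠ 0 := pow_ne_zero _ h0
    have n1 := hx n
    have n2 := hx j
    have n3 : x^(j*n) ≠ 0 := pow_ne_zero _ h0
    rw [pow_add x (n+1) j, pow_succ x n] at h1
    rw [pow_succ x j, pow_succ x n] at h2
    rw [pow_succ x j] at h3 n2
    rw [pow_succ x n] at n1
    have e1 : G x (n+1+j) j = (1 - x^n * x * x^j) * G x (n+j) j / (1 - x^n * x) := by
      rw [eq_div_iff n1]; linear_combination h1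
    have e2 : G x (n+1) (j+1) = (1 - x^n * x) * G x n j / (1 - x^j * x) := by
      rw [eq_div_iff n2]; linear_combination h2
    have e3 : G x n (j+1) = (x^j - x^n) * G x n j / (x^j * (1 - x^j * x)) := by
      rw [eq_div_iff (mul_ne_zero nJ n2)]; linear_combination h3
    rw [e1, e2, e3, ee, show (j+1)*n = j*n+n by ring, show (j+1)*(n+1) = j*n+n+j+1 by ring,
      show 2*n+1 = n+n+1 by ring]
    simp only [pow_succ, pow_add]
    generalize x^(j*n) = Z at *
    generalize x^n = A at *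
    generalize x^j = B at *
    have n1' : 1 - x * A ≠ 0 := by rwa [mul_comm] at n1
    have n2' : 1 - x * B ≠ 0 := by rwa [mul_comm] at n2
    field_simp
    ring

lemma S2 (j : ℕ) : ∀ n : ℕ, ∑ k ∈ range (n+1), (-1)^(n-k) * (1 - x^(2*k+1)) * x^(tr k) * ee x j k =
    (1 - x^(n+1)) * (G x (n+1+j) j * G x n j * (x^(tr (n+1)) / x^(j*(n+1)))) := by
  intro n
  induction n with
  | zero =>
    rw [zero_add, sum_range_one]
    rcases Nat.eq_zero_or_pos j with rfl | h
    · simp [tr, ee]
    · rw [ee_zero hx j 0 h, G_eq_zero x 0 j h]; ring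
  | succ n ih =>
    rw [sum_range_succ]
    have e0 : ∑ k ∈ range (n+1), (-1)^(n+1-k) * (1 - x^(2*k+1)) * x^(tr k) * ee x j k =
        - ∑ k ∈ range (n+1), (-1)^(n-k) * (1 - x^(2*k+1)) * x^(tr k) * ee x j k := by
      rw [← sum_neg_distrib]
      apply sum_congr rfl
      intro k hk
      rw [mem_range] at hk
      rw [show n+1-k = (n-k)+1 by omega, pow_succ (-1 : K)]
      ring
    rw [e0, ih, Nat.sub_self, pow_zero]
    have h1 := G_up hx (n+1) j
    have h2 := G_upper' hx n j
    have nN : x^(n+1) ≠ 0 := pow_ne_zero _ h0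
    have nJ : x^j ≠ 0 := pow_ne_zero _ h0
    have n1 := hx n
    have n2 := hx (n+1)
    have n3 : x^(j*(n+1)) ≠ 0 := pow_ne_zero _ h0
    rw [pow_add x (n+1+1) j, pow_succ x (n+1)] at h1
    rw [pow_succ x (n+1)] at n2
    have e1 : G x (n+1+1+j) j = (1 - x^(n+1) * x * x^j) * G x (n+1+j) j / (1 - x^(n+1) * x) := by
      rw [eq_div_iff n2]; linear_combination h1
    have e2 : G x n j = (x^j - x^(n+1)) * G x (n+1) j / (x^j * (1 - x^(n+1))) := by
      rw [eq_div_iff (mul_ne_zero nJ n1)]; linear_combination h2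
    rw [e1, e2, ee, show j*(n+1+1) = j*(n+1)+j by ring, show 2*(n+1)+1 = (n+1)+(n+1)+1 by ring,
      show tr (n+1+1) = tr (n+1) + (n+1) from rfl, pow_add x (j*(n+1)), pow_add x (tr (n+1)),
      pow_succ x ((n+1)+(n+1)), pow_add x (n+1) (n+1), pow_succ x (n+1)]
    generalize x^(j*(n+1)) = Z at *
    generalize x^(tr (n+1)) = Y at *
    generalize x^(n+1) = A at *
    generalize x^j = B at *
    have n2' : 1 - x * A ≠ 0 := by rwa [mul_comm] at n2
    field_simp
    ring

end Pool.Agent.V11307.D8
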