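import Pool.Agent.V11307.D8.Prod
import Pool.Agent.V11307.D8.Sums

set_option autoImplicit false

/-!
# Positivity
-/

namespace Pool.Agent.V11307.D8

open Finset Polynomial

variable {K : Type*} [Field K]

/-- `y` is a Laurent polynomial in `x` with nonnegative integer coefficients -/
def Pos (x y : K) : Prop := ∃ (N : ℕ) (p : ℕ[X]), y * x^N = p.eval₂ (Nat.castRingHom K) x

variable {x : K}

lemma Pos.add {y z : K} (hy : Pos x y) (hz : Pos x z) : Pos x (y + z) := by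
  obtain ⟨N, p, hp⟩ := hy
  obtain ⟨M, r, hr⟩ := hz
  refine ⟨N + M, p * X^M + r * X^N, ?_⟩
  rw [eval₂_add, eval₂_mul, eval₂_mul, eval₂_pow, eval₂_pow, eval₂_X, ← hp, ← hr, pow_add]
  ring

lemma Pos.mul {y z : K} (hy : Pos x y) (hz : Pos x z) : Pos x (y * z) := by
  obtain ⟨N, p, hp⟩ := hy
  obtain ⟨M, r, hr⟩ := hz
  refine ⟨N + M, p * r, ?_⟩
  rw [eval₂_mul, ← hp, ← hr, pow_add]
  ring

lemma Pos.zero : Pos x 0 := ⟨0, 0, by simp⟩

lemma Pos.one : Pos x 1 := ⟨0, 1, by simp⟩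

lemma Pos.X_pow (n : ℕ) : Pos x (x^n) := ⟨0, X^n, by simp⟩

lemma Pos.inv_pow (h0 : x ≠ 0) (n : ℕ) : Pos x (1 / x^n) := ⟨n, 1, by
  rw [one_div, inv_mul_cancel₀ (pow_ne_zero _ h0)]; simp⟩

lemma Pos.div_pow (h0 : x ≠ 0) {y : K} (hy : Pos x y) (n : ℕ) : Pos x (y / x^n) := by
  have := hy.mul (Pos.inv_pow h0 n)
  rwa [mul_one_div] at this

lemma Pos.sum {ι : Type*} (s : Finset ι) (f : ι → K) (h : ∀ i ∈ s, Pos x (f i)) : Pos x (∑ i ∈ s, f i) := by
  classical
  induction s using Finset.induction_on with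
  | empty => rw [sum_empty]; exact Pos.zero
  | insert a s ha ih =>
    rw [sum_insert ha]
    exact (h a (mem_insert_self _ _)).add (ih fun i hi => h i (mem_insert_of_mem hi))

lemma Pos.prod {ι : Type*} (s : Finset ι) (f : ι → K) (h : ∀ i ∈ s, Pos x (f i)) : Pos x (∏ i ∈ s, f i) := by
  classical
  induction s using Finset.induction_on with
  | empty => rw [prod_empty]; exact Pos.one
  | insert a s ha ih =>
    rw [prod_insert ha]
    exact (h a (mem_insert_self _ _)).mul (ih fun i hi => h i (mem_insert_of_mem hi))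

lemma Pos.onep (n : ℕ) : Pos x (1 + x^n) := Pos.one.add (Pos.X_pow n)

lemma Pos.gs (n : ℕ) : Pos x (∑ i ∈ range n, x^i) := Pos.sum _ _ fun i _ => Pos.X_pow i

lemma Pos.G : ∀ n k : ℕ, Pos x (G x n k) := by
  intro n
  induction n with
  | zero =>
    intro k
    cases k with
    | zero => rw [G_zero]; exact Pos.one
    | succ k => exact Pos.zero
  | succ n ih =>
    intro k
    cases k with
    | zero => rw [G_zero]; exact Pos.one
    | succ k =>
      rw [G_succ]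
      exact ((Pos.X_pow _).mul (ih _)).add (ih _)

/-- `(-1;x)_j` -/
def pm (x : K) (j : ℕ) : K := ∏ i ∈ range j, (1 + x^i)

/-- `(-x;x)_j` -/
def pp (x : K) (j : ℕ) : K := ∏ i ∈ range j, (1 + x^(i+1))

lemma Pos.pm (j : ℕ) : Pos x (pm x j) := Pos.prod _ _ fun i _ => Pos.onep i

lemma Pos.pp (j : ℕ) : Pos x (pp x j) := Pos.prod _ _ fun i _ => Pos.onep _

variable (hx : ∀ i : ℕ, 1 - x^(i+1) ≠ 0) (h0 : x ≠ 0)

include hx

lemma ga_eq : ∀ j : ℕ, ga x j * G x (2*j) j = x^(j*j) * pm x j * pp x j := by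
  intro j
  induction j with
  | zero => simp [ga, pm, pp]
  | succ j ih =>
    have h1 := G_absorb hx (2*j+1) j
    have h2 := G_upper hx j j
    have n1 := hx j
    have n2 := hx (2*j)
    rw [← two_mul] at h2
    have h3 : 1 - x^(2*j+1+1) = (1 - x^(j+1)) * (1 + x^(j+1)) := by
      rw [show 2*j+1+1 = (j+1)+(j+1) by ring, pow_add]; ring
    rw [h3] at h1
    have e1 : G x (2*j+1+1) (j+1) = (1 + x^(j+1)) * ((1 - x^(2*j+1)) * G x (2*j) j / (1 - x^(j+1))) := by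
      rw [← h2, mul_comm (1 - x^(j+1)) (G x (2*j+1) j), mul_div_assoc, div_self n1, mul_one]
      apply mul_left_cancel₀ n1
      linear_combination h1
    rw [ga, show 2*(j+1) = 2*j+1+1 by ring, e1, pm, pp, prod_range_succ, prod_range_succ, ← pm, ← pp,
      show (j+1)*(j+1) = j*j+(2*j+1) by ring, pow_add x (j*j)]
    have e2 : ga x j * (x^(2*j+1) * (1 + x^j) * (1 - x^(j+1)) / (1 - x^(2*j+1))) *
        ((1 + x^(j+1)) * ((1 - x^(2*j+1)) * G x (2*j) j / (1 - x^(j+1)))) =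
        (ga x j * G x (2*j) j) * (x^(2*j+1) * (1 + x^j) * (1 + x^(j+1))) := by
      generalize x^(2*j+1) = U at *
      generalize x^(j+1) = V at *
      generalize x^j = W at *
      field_simp
    rw [e2, ih]
    ring

lemma G_tri (m j : ℕ) : G x m j * G x (m+j) j = G x (m+j) (2*j) * G x (2*j) j := by
  rcases Nat.lt_or_ge m j with h | h
  · rw [G_eq_zero x m j h, G_eq_zero x (m+j) (2*j) (by omega)]; ring
  · obtain ⟨d, rfl⟩ := Nat.exists_eq_add_of_le h
    have h1 := G_eq hx (2*j) d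
    have h2 := G_eq hx j d
    have h3 := G_eq hx j (j+d)
    have h4 := G_eq hx j j
    rw [show 2*j+d = j+d+j by ring] at h1
    rw [show j+(j+d) = j+d+j by ring] at h3
    rw [show j+j = 2*j by ring] at h4
    rw [h1, h2, h3, h4]
    have := fac_ne hx j
    have := fac_ne hx d
    have := fac_ne hx (j+d)
    have := fac_ne hx (2*j)
    field_simp

lemma ga_ee (m j : ℕ) : ga x j * ee x j m = x^(j*j) * pm x j * pp x j * G x (m+j) (2*j) / x^(j*m) := by
  rw [ee, G_tri hx, ← ga_eq hx]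
  ring

include h0

lemma Pos.alpha (m j : ℕ) : Pos x (ga x j * ee x j m) := by
  rw [ga_ee hx]
  exact ((((Pos.X_pow _).mul (Pos.pm _)).mul (Pos.pp _)).mul (Pos.G _ _)).div_pow h0 _

lemma Pos.cc (m n s : ℕ) : Pos x (cc x m n s) := by
  rw [D8.cc]
  exact (((Pos.G _ _).mul (Pos.G _ _)).mul (Pos.G _ _)).mul ((Pos.X_pow _).div_pow h0 _)

omit h0 in
lemma one_sub_eq (n : ℕ) : 1 - x^n = (1 - x) * ∑ i ∈ range n, x^i := by
  rw [mul_comm, geom_sum_mul_neg]

/-- the coefficient of `A` -/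
lemma Pos.beta (m j : ℕ) : Pos x (ga x j * ee x j (m+1) *
    ((1 - x^(m+1)) * (1 - x^(m+2)) / ((1 - x^2) * (1 - x^(j+1))))) := by
  have n1 := hx 0
  have n2 := hx 1
  have nj := hx j
  rw [zero_add, pow_one] at n1
  rw [show 1 + 1 = 2 by norm_num] at n2
  rcases Nat.eq_zero_or_pos j with rfl | hj
  · have h1 := G_absorb hx (m+1) 1
    have h2 := G_absorb hx m 0
    rw [ga, ee_zero' hx, zero_add, pow_one]
    rw [G_zero] at h2
    rw [zero_add, pow_one] at h2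
    have e : 1 * 1 * ((1 - x^(m+1)) * (1 - x^(m+2)) / ((1 - x^2) * (1 - x))) = D8.G x (m+2) 2 := by
      rw [one_mul, one_mul, div_eq_iff (mul_ne_zero n2 n1)]
      rw [show m+1+1 = m+2 by ring, show 1 + 1 = 2 by norm_num] at h1
      linear_combination (-(1 - x^(m+2))) * h2 - (1 - x) * h1
    rw [e]
    exact Pos.G _ _
  · obtain ⟨i, rfl⟩ : ∃ i, j = i + 1 := ⟨j-1, by omega⟩
    have hm : 1 + x ≠ 0 := by
      intro h
      apply n2
      linear_combination (1 - x) * h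
    -- extract the factor `1 + x`
    have e1 : D8.pp x (i+1) = (1 + x) * ∏ k ∈ range i, (1 + x^(k+2)) := by
      rw [D8.pp, prod_range_succ', zero_add, pow_one, mul_comm]
    have e2 : (1 - x^(m+1)) * (1 - x^(m+2)) * D8.G x (m+1+(i+1)) (2*(i+1)) =
        (1 - x^(2*(i+1)+1)) * (1 - x^(2*(i+1)+2)) * D8.G x (m+1+(i+1)+1) (2*(i+1)+2) +
        x^(m+1-(i+1)) * (1 - x^(i+1)) * (1 - x^(i+2)) * D8.G x (m+1+(i+1)) (2*(i+1)) := by
      rcases Nat.lt_or_ge m i with h | h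
      · rw [G_eq_zero x _ _ (show m+1+(i+1) < 2*(i+1) by omega),
          G_eq_zero x _ _ (show m+1+(i+1)+1 < 2*(i+1)+2 by omega)]
        ring
      · obtain ⟨d, rfl⟩ := Nat.exists_eq_add_of_le h
        have g1 := G_absorb hx (i+d+1+(i+1)) (2*(i+1)+1)
        have g2 := G_lower hx (2*(i+1)) d
        rw [show 2*(i+1)+d = i+d+1+(i+1) by ring] at g2
        rw [show 2*(i+1)+1+1 = 2*(i+1)+2 by ring] at g1
        rw [show i+d+1-(i+1) = d by omega]
        have p1 : x^(i+d+1) = x^i * x^d * x := by rw [pow_succ, pow_add]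
        have p2 : x^(i+d+2) = x^i * x^d * x * x := by rw [pow_succ, pow_succ, pow_add]
        have p3 : x^(i+1) = x^i * x := pow_succ _ _
        have p4 : x^(i+2) = x^i * x * x := by rw [pow_succ, pow_succ]
        have p5 : x^(i+d+1+(i+1)+1) = x^i * x^d * x * (x^i * x) * x := by
          rw [pow_succ, pow_add x (i+d+1), p1, p3]
        rw [p5] at g1
        rw [p1, p2, p3, p4]
        linear_combination (-(1 - x^(2*(i+1)+1))) * g1 - (1 - x^i * x^d * x * (x^i * x) * x) * g2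
    have s1 := one_sub_eq hx (2*(i+1)+1)
    have s2 := one_sub_eq hx (i+1)
    have e3 : ga x (i+1) * ee x (i+1) (m+1) *
        ((1 - x^(m+1)) * (1 - x^(m+2)) / ((1 - x^2) * (1 - x^(i+1+1)))) =
        x^((i+1)*(i+1)) * D8.pm x (i+1) * (∏ k ∈ range i, (1 + x^(k+2))) / x^((i+1)*(m+1)) *
        ((∑ k ∈ range (2*(i+1)+1), x^k) * (1 + x^(i+2)) * D8.G x (m+1+(i+1)+1) (2*(i+1)+2) +
         x^(m+1-(i+1)) * (∑ k ∈ range (i+1), x^k) * D8.G x (m+1+(i+1)) (2*(i+1))) := by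
      rw [ga_ee hx, e1]
      have t1 : 1 - x^2 = (1 - x) * (1 + x) := by ring
      have t2 : 1 - x^(2*(i+1)+2) = (1 - x^(i+2)) * (1 + x^(i+2)) := by
        rw [show 2*(i+1)+2 = (i+2)+(i+2) by ring, pow_add]; ring
      rw [s1, t2] at e2
      have e2' : (1 - x^(m+1)) * (1 - x^(m+2)) * D8.G x (m+1+(i+1)) (2*(i+1)) =
        (1 - x) * (∑ k ∈ range (2*(i+1)+1), x^k) * ((1 - x^(i+2)) * (1 + x^(i+2))) * D8.G x (m+1+(i+1)+1) (2*(i+1)+2) +
        x^(m+1-(i+1)) * ((1 - x) * ∑ k ∈ range (i+1), x^k) * (1 - x^(i+2)) * D8.G x (m+1+(i+1)) (2*(i+1)) := by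
        rw [e2, ← s2]
      rw [t1, show i+1+1 = i+2 by ring] at *
      have nz : x^((i+1)*(m+1)) ≠ 0 := pow_ne_zero _ h0
      have e4 : (1 - x^(m+1)) * (1 - x^(m+2)) * D8.G x (m+1+(i+1)) (2*(i+1)) / ((1 - x) * (1 - x^(i+2))) =
        ((∑ k ∈ range (2*(i+1)+1), x^k) * (1 + x^(i+2)) * D8.G x (m+1+(i+1)+1) (2*(i+1)+2) +
         x^(m+1-(i+1)) * (∑ k ∈ range (i+1), x^k) * D8.G x (m+1+(i+1)) (2*(i+1))) := by
        rw [div_eq_iff (mul_ne_zero n1 nj), e2']
        ring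
      rw [← e4]
      field_simp
    rw [e3]
    refine Pos.mul (Pos.div_pow h0 (((Pos.X_pow _).mul (Pos.pm _)).mul (Pos.prod _ _ fun k _ => Pos.onep _)) _) ?_
    exact (((Pos.gs _).mul (Pos.onep _)).mul (Pos.G _ _)).add (((Pos.X_pow _).mul (Pos.gs _)).mul (Pos.G _ _))

end Pool.Agent.V11307.D8
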