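import Pool.Agent.V11307.D8.Sys2

set_option autoImplicit false

/-!
# Linearization of the products `e_m(k) e_n(k)`
-/

namespace Pool.Agent.V11307.D8

open Finset

variable {K : Type*} [Field K] (x : K)

/-- the linearization coefficient -/
def cc (m n s : ℕ) : K := G x s m * G x s n * G x (m+n) s * (x^(s*s) / x^(s*(m+n)))

/-- the eigenvalue -/
def lam (k : ℕ) : K := 1 / x^k + x^k * x

variable {x} (hx : ∀ i : ℕ, 1 - x^(i+1) ≠ 0) (h0 : x ≠ 0)

include hx h0

lemma ee_succ (s k : ℕ) : ee x s k * (lam x k - lam x s) = (1 - x^(s+1))^2 * ee x (s+1) k := by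
  have h1 := G_lower' hx k s
  have h2 := G_absorb hx (k+s) s
  have n3 : x^s ≠ 0 := pow_ne_zero _ h0
  have n4 : x^k ≠ 0 := pow_ne_zero _ h0
  have n5 := hx s
  have n6 : x^(s*k) ≠ 0 := pow_ne_zero _ h0
  rw [pow_succ x s] at h1 h2 n5
  rw [pow_succ x (k+s), pow_add x k s] at h2
  have e1 : G x k (s+1) = (x^s - x^k) * G x k s / (x^s * (1 - x^s * x)) := by
    rw [eq_div_iff (mul_ne_zero n3 n5)]; linear_combination h1
  have e2 : G x (k+(s+1)) (s+1) = (1 - x^k * x^s * x) * G x (k+s) s / (1 - x^s * x) := by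
    rw [show k+(s+1) = k+s+1 by ring, eq_div_iff n5]; linear_combination h2
  rw [ee, ee, lam, lam, e1, e2, show (s+1)*k = s*k+k by ring, pow_add x (s*k) k, pow_succ x s]
  generalize G x k s = g1
  generalize G x (k+s) s = g2
  generalize x^(s*k) = Z at *
  generalize x^k = A at *
  generalize x^s = B at *
  have n5' : 1 - x * B ≠ 0 := by rwa [mul_comm] at n5
  field_simp
  ring

lemma cc_succ (m n s : ℕ) : (1 - x^(n+1))^2 * cc x m (n+1) (s+1) =
    (1 - x^(s+1))^2 * cc x m n s + (lam x (s+1) - lam x n) * cc x m n (s+1) := by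
  have h1 := G_upper' hx s m
  have h2 := G_upper' hx s n
  have h3 := G_lower' hx (s+1) n
  have h4 := G_absorb hx (m+n) s
  have h5 := G_upper' hx (m+n) (s+1)
  have nM : x^m ≠ 0 := pow_ne_zero _ h0
  have nN : x^n ≠ 0 := pow_ne_zero _ h0
  have nT : x^(s+1) ≠ 0 := pow_ne_zero _ h0
  have n1 := hx n
  have n2 := hx s
  have n3 := hx (m+n)
  have e0 : x^(m+n+1) = x^m * x^n * x := by rw [pow_succ, pow_add]
  rw [e0] at h4 h5 n3
  rw [pow_succ x n] at n1 h3
  have e1 : G x s m = (x^m - x^(s+1)) * G x (s+1) m / (x^m * (1 - x^(s+1))) := by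
    rw [eq_div_iff (mul_ne_zero nM n2)]; linear_combination h1
  have e2 : G x s n = (x^n - x^(s+1)) * G x (s+1) n / (x^n * (1 - x^(s+1))) := by
    rw [eq_div_iff (mul_ne_zero nN n2)]; linear_combination h2
  have e3 : G x (s+1) (n+1) = (x^n - x^(s+1)) * G x (s+1) n / (x^n * (1 - x^n * x)) := by
    rw [eq_div_iff (mul_ne_zero nN n1)]; linear_combination h3
  have e4 : G x (m+n) s = (1 - x^(s+1)) * G x (m+n+1) (s+1) / (1 - x^m * x^n * x) := by
    rw [eq_div_iff n3]; linear_combination -h4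
  have e5 : G x (m+n) (s+1) = (x^(s+1) - x^m * x^n * x) * G x (m+n+1) (s+1) / (x^(s+1) * (1 - x^m * x^n * x)) := by
    rw [eq_div_iff (mul_ne_zero nT n3)]; linear_combination h5
  have e6 : x^(s*s) / x^(s*(m+n)) = x^((s+1)*(s+1)) / x^((s+1)*(m+n)) * (x * x^m * x^n / (x^(s+1))^2) := by
    have n7 : x^(s*(m+n)) ≠ 0 := pow_ne_zero _ h0
    have n8 : x^((s+1)*(m+n)) ≠ 0 := pow_ne_zero _ h0
    field_simp
    rw [← pow_mul]
    simp only [← pow_add, ← pow_succ]
    congr 1
    ring
  rw [cc, cc, cc, show m+(n+1) = m+n+1 by ring, e1, e2, e3, e4, e5, e6, lam, lam, show (s+1)*(m+n+1) = (s+1)*(m+n)+(s+1) by ring,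
    pow_add x ((s+1)*(m+n)), pow_succ x n]
  have n8 : x^((s+1)*(m+n)) ≠ 0 := pow_ne_zero _ h0
  generalize G x (s+1) m = g1
  generalize G x (s+1) n = g2
  generalize G x (m+n+1) (s+1) = g3
  generalize x^((s+1)*(s+1)) = Y at *
  generalize x^((s+1)*(m+n)) = Z at *
  generalize x^(s+1) = T at *
  generalize x^m = A at *
  generalize x^n = B at *
  have n1' : 1 - x * B ≠ 0 := by rwa [mul_comm] at n1
  have m1 : 1 - A * x * B ≠ 0 := by rwa [mul_right_comm] at n3
  have m2 : 1 - x * A * B ≠ 0 := by rwa [mul_comm x A]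
  have m3 : 1 - x * B * A ≠ 0 := by rwa [mul_right_comm]
  have m4 : 1 - B * x * A ≠ 0 := by rwa [mul_comm B x]
  have m5 : 1 - B * A * x ≠ 0 := by rwa [mul_comm B A]
  field_simp
  ring

omit hx h0 in
lemma cc_eq_zero (m n s : ℕ) (h : m + n < s) : cc x m n s = 0 := by
  rw [cc, G_eq_zero x (m+n) s h]; ring

/-- the linearization formula -/
theorem linearize (m k : ℕ) : ∀ n L : ℕ, m + n < L →
    ee x m k * ee x n k = ∑ s ∈ range L, cc x m n s * ee x s k := by
  intro n
  induction n with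
  | zero =>
    intro L hL
    rw [ee_zero' hx, mul_one, sum_eq_single m]
    · rw [cc, add_zero, G_self hx, G_zero, div_self (pow_ne_zero _ h0)]
      ring
    · intro s _ hs
      rcases Nat.lt_or_ge s m with h | h
      · rw [cc, G_eq_zero x s m h]; ring
      · rw [cc_eq_zero m 0 s (by omega)]; ring
    · intro h
      rw [mem_range] at h
      omega
  | succ n ih =>
    intro L hL
    have h1 := ih L (by omega)
    have h2 := ee_succ hx h0 n k
    have n1 := hx n
    obtain ⟨M, rfl⟩ : ∃ M, L = M + 1 := ⟨L-1, by omega⟩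
    apply mul_left_cancel₀ (pow_ne_zero 2 n1)
    have e1 : (1 - x^(n+1))^2 * (ee x m k * ee x (n+1) k) = (ee x m k * ee x n k) * (lam x k - lam x n) := by
      linear_combination (-ee x m k) * h2
    rw [e1, h1, sum_mul, mul_sum]
    have e2 : ∀ s ∈ range (M+1), cc x m n s * ee x s k * (lam x k - lam x n) =
        cc x m n s * (1 - x^(s+1))^2 * ee x (s+1) k + (lam x s - lam x n) * cc x m n s * ee x s k := by
      intro s _
      have h3 := ee_succ hx h0 s k
      linear_combination cc x m n s * h3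
    rw [sum_congr rfl e2, sum_add_distrib, sum_range_succ, cc_eq_zero m n M (by omega), sum_range_succ' _ M,
      sum_range_succ' _ M]
    have e3 : (lam x 0 - lam x n) * cc x m n 0 * ee x 0 k = (1 - x^(n+1))^2 * (cc x m (n+1) 0 * ee x 0 k) := by
      have : cc x m (n+1) 0 = 0 := by
        rw [cc, G_eq_zero x 0 (n+1) (by omega)]; ring
      rw [this]
      rcases Nat.eq_zero_or_pos n with rfl | h
      · ring
      · rw [cc, G_eq_zero x 0 n h]; ring
    rw [← e3, zero_mul, zero_mul, add_zero, ← add_assoc, ← sum_add_distrib]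
    congr 1
    apply sum_congr rfl
    intro s _
    have h4 := cc_succ hx h0 m n s
    linear_combination (-ee x (s+1) k) * h4

end Pool.Agent.V11307.D8
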