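import Pool.Agent.V11307.D8.Del

set_option autoImplicit false

/-!
# The expansion of the product, by a first order system
-/

namespace Pool.Agent.V11307.D8

open Finset

variable {K : Type*} [Field K] (x : K)

/-- `[m,j][m+j,j] q^{-jm}` -/
def ee (j m : ℕ) : K := G x m j * G x (m+j) j / x^(j*m)

/-- the difference companion -/
def hh (i μ : ℕ) : K := G x μ i * G x (μ+1+i) i / x^((i+1)*(μ+1))

/-- common factor -/
def W (i μ : ℕ) : K := G x (μ+1) i * G x (μ+i) i / (1 - x^(μ+1)) / x^(i*(μ+1))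

/-- the weights -/
def ga : ℕ → K
  | 0 => 1
  | i+1 => ga i * (x^(2*i+1) * (1 + x^i) * (1 - x^(i+1)) / (1 - x^(2*i+1)))

variable {x} (hx : ∀ i : ℕ, 1 - x^(i+1) ≠ 0) (h0 : x ≠ 0)

include hx

/-- `(1 - x^{m-i}) [m,i] = (1 - x^{i+1}) [m,i+1]`, without subtraction -/
lemma G_lower' (m i : ℕ) : x^i * (1 - x^(i+1)) * G x m (i+1) = (x^i - x^m) * G x m i := by
  rcases Nat.lt_or_ge m i with h | h
  · rw [G_eq_zero x m i h, G_eq_zero x m (i+1) (by omega)]; ring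
  · obtain ⟨d, rfl⟩ := Nat.exists_eq_add_of_le h
    have := G_lower hx i d
    rw [pow_add]
    linear_combination x^i * this

lemma G_upper' (m i : ℕ) : x^i * (1 - x^(m+1)) * G x m i = (x^i - x^(m+1)) * G x (m+1) i := by
  rcases Nat.lt_or_ge m i with h | h
  · rcases Nat.lt_or_ge (m+1) i with h' | h'
    · rw [G_eq_zero x m i h, G_eq_zero x (m+1) i h']; ring
    · have : i = m+1 := by omega
      subst this
      rw [G_eq_zero x m (m+1) h]; ring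
  · obtain ⟨d, rfl⟩ := Nat.exists_eq_add_of_le h
    have := G_upper hx i d
    have e : x^(i+d+1) = x^i * x^(d+1) := by rw [← pow_add]; congr 1
    rw [e] at this ⊢
    linear_combination (-x^i) * this

lemma G_up (μ i : ℕ) : (1 - x^(μ+1)) * G x (μ+1+i) i = (1 - x^(μ+1+i)) * G x (μ+i) i := by
  have := G_upper hx i μ
  rw [show i+μ+1 = μ+1+i by ring, show i+μ = μ+i by ring] at this
  exact this

include h0

lemma L1 (i μ : ℕ) : ee x i (μ+1) = W x i μ * (1 - x^(μ+1) * x^i) := by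
  have h1 := G_up hx μ i
  have n1 := hx μ
  have n2 : x^(i*(μ+1)) ≠ 0 := pow_ne_zero _ h0
  rw [pow_add x (μ+1) i] at h1
  have : G x (μ+1+i) i = (1 - x^(μ+1) * x^i) * G x (μ+i) i / (1 - x^(μ+1)) := by
    rw [eq_div_iff n1]; linear_combination h1
  rw [ee, W, this]
  field_simp

lemma L2 (i μ : ℕ) : ee x i μ = W x i μ * (x^i - x^(μ+1)) := by
  have h1 := G_upper' hx μ i
  have n1 := hx μ
  have n2 : x^(i*μ) ≠ 0 := pow_ne_zero _ h0
  have n3 : x^i ≠ 0 := pow_ne_zero _ h0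
  have : G x μ i = (x^i - x^(μ+1)) * G x (μ+1) i / (x^i * (1 - x^(μ+1))) := by
    rw [eq_div_iff (mul_ne_zero n3 n1)]; linear_combination h1
  rw [ee, W, this, show i*(μ+1) = i*μ+i by ring, pow_add x (i*μ) i]
  field_simp

lemma L3 (i μ : ℕ) : ee x (i+1) (μ+1) = W x i μ * ((1 - x^(μ+1) * x^i) * (1 - x^(μ+1) * x^i * x) *
    (x^i - x^(μ+1)) / ((1 - x^i * x)^2 * (x^(μ+1) * x^i))) := by
  have h1 := G_lower' hx (μ+1) i
  have h2 := G_absorb hx (μ+1+i) i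
  have h3 := G_up hx μ i
  have n1 := hx μ
  have n2 : x^(i*(μ+1)) ≠ 0 := pow_ne_zero _ h0
  have n3 : x^i ≠ 0 := pow_ne_zero _ h0
  have n4 : x^(μ+1) ≠ 0 := pow_ne_zero _ h0
  have n5 := hx i
  rw [pow_succ x i] at h1 h2 n5
  rw [pow_succ x (μ+1+i), pow_add x (μ+1) i] at h2
  rw [pow_add x (μ+1) i] at h3
  have e1 : G x (μ+1) (i+1) = (x^i - x^(μ+1)) * G x (μ+1) i / (x^i * (1 - x^i * x)) := by
    rw [eq_div_iff (mul_ne_zero n3 n5)]; linear_combination h1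
  have e2 : G x (μ+1+i+1) (i+1) = (1 - x^(μ+1) * x^i * x) * ((1 - x^(μ+1) * x^i) * G x (μ+i) i / (1 - x^(μ+1))) /
      (1 - x^i * x) := by
    have : G x (μ+1+i) i = (1 - x^(μ+1) * x^i) * G x (μ+i) i / (1 - x^(μ+1)) := by
      rw [eq_div_iff n1]; linear_combination h3
    rw [← this, eq_div_iff n5]; linear_combination h2
  rw [ee, W, show μ+1+(i+1) = μ+1+i+1 by ring, e1, e2, show (i+1)*(μ+1) = i*(μ+1)+(μ+1) by ring, pow_add x (i*(μ+1))]
  field_simp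

lemma L4 (i μ : ℕ) : ee x (i+1) μ = W x i μ * ((1 - x^(μ+1) * x^i) *
    (x^i - x^(μ+1)) * (x^i * x - x^(μ+1)) / ((1 - x^i * x)^2 * (x^(μ+1) * x^i))) := by
  have h1 := G_upper' hx μ (i+1)
  have h2 := G_lower' hx (μ+1) i
  have h3 := G_absorb hx (μ+i) i
  have n1 := hx μ
  have n2 : x^(i*(μ+1)) ≠ 0 := pow_ne_zero _ h0
  have n3 : x^i ≠ 0 := pow_ne_zero _ h0
  have n4 : x^(μ+1) ≠ 0 := pow_ne_zero _ h0
  have n5 := hx i
  have n6 : x^((i+1)*μ) ≠ 0 := pow_ne_zero _ h0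
  rw [pow_succ x i] at h1 h2 h3 n5
  rw [show μ+i+1 = μ+1+i by ring, pow_add x (μ+1) i] at h3
  have e1 : G x μ (i+1) = (x^i * x - x^(μ+1)) * ((x^i - x^(μ+1)) * G x (μ+1) i / (x^i * (1 - x^i * x))) /
      (x^i * x * (1 - x^(μ+1))) := by
    have : G x (μ+1) (i+1) = (x^i - x^(μ+1)) * G x (μ+1) i / (x^i * (1 - x^i * x)) := by
      rw [eq_div_iff (mul_ne_zero n3 n5)]; linear_combination h2
    rw [← this, eq_div_iff (mul_ne_zero (mul_ne_zero n3 h0) n1)]; linear_combination h1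
  have e2 : G x (μ+(i+1)) (i+1) = (1 - x^(μ+1) * x^i) * G x (μ+i) i / (1 - x^i * x) := by
    rw [show μ+(i+1) = μ+1+i by ring, eq_div_iff n5]; linear_combination h3
  have e3 : x^((i+1)*μ) = x^(i*(μ+1)) * x^(μ+1) / (x^i * x) := by
    rw [eq_div_iff (mul_ne_zero n3 h0), ← pow_succ, ← pow_add, ← pow_add]
    congr 1; ring
  rw [ee, W, e1, e2, e3]
  field_simp

lemma L5 (i μ : ℕ) : hh x i (μ+1) * (1 - x^(μ+1) * x) = W x i μ * ((1 - x^(μ+1) * x^i) *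
    (1 - x^(μ+1) * x^i * x) / (x^(μ+1) * x^i * x)) := by
  have h3 := G_up hx μ i
  have h4 := G_up hx (μ+1) i
  have n1 := hx μ
  have n2 : x^(i*(μ+1)) ≠ 0 := pow_ne_zero _ h0
  have n3 : x^i ≠ 0 := pow_ne_zero _ h0
  have n4 : x^(μ+1) ≠ 0 := pow_ne_zero _ h0
  have n7 := hx (μ+1)
  rw [pow_add x (μ+1) i] at h3
  rw [show μ+1+1+i = μ+1+i+1 by ring, pow_succ x (μ+1+i), pow_succ x (μ+1), pow_add x (μ+1) i] at h4
  rw [pow_succ x (μ+1)] at n7
  have e2 : G x (μ+1+i+1) i = (1 - x^(μ+1) * x^i * x) * ((1 - x^(μ+1) * x^i) * G x (μ+i) i / (1 - x^(μ+1))) /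
      (1 - x^(μ+1) * x) := by
    have : G x (μ+1+i) i = (1 - x^(μ+1) * x^i) * G x (μ+i) i / (1 - x^(μ+1)) := by
      rw [eq_div_iff n1]; linear_combination h3
    rw [← this, eq_div_iff n7]; linear_combination h4
  have e3 : x^((i+1)*(μ+1+1)) = x^(i*(μ+1)) * x^(μ+1) * x^i * x := by
    rw [← pow_add, ← pow_add, ← pow_succ]; congr 1; ring
  rw [hh, W, show μ+1+1+i = μ+1+i+1 by ring, e2, e3]
  field_simp

/-- here `m = μ + 2` -/
lemma L6 (i μ : ℕ) : hh x i μ * (1 - x^(μ+1)) = W x i (μ+1) * ((x^i - x^(μ+2)) *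
    (x^i * x - x^(μ+2)) / (x^i * x^(μ+2))) := by
  have h1 := G_upper' hx μ i
  have h2 := G_upper' hx (μ+1) i
  have n1 := hx μ
  have n7 := hx (μ+1)
  have n2 : x^(i*(μ+1)) ≠ 0 := pow_ne_zero _ h0
  have n3 : x^i ≠ 0 := pow_ne_zero _ h0
  have n4 : x^(μ+1) ≠ 0 := pow_ne_zero _ h0
  have n8 : x^((i+1)*(μ+1)) ≠ 0 := pow_ne_zero _ h0
  have n9 : x^(μ+2) ≠ 0 := pow_ne_zero _ h0
  rw [show μ+1+1 = μ+2 by ring] at h2 n7
  have e1 : G x μ i = (x^i - x^(μ+1)) * ((x^i - x^(μ+2)) * G x (μ+2) i / (x^i * (1 - x^(μ+2)))) /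
      (x^i * (1 - x^(μ+1))) := by
    have : G x (μ+1) i = (x^i - x^(μ+2)) * G x (μ+2) i / (x^i * (1 - x^(μ+2))) := by
      rw [eq_div_iff (mul_ne_zero n3 n7)]; linear_combination h2
    rw [← this, eq_div_iff (mul_ne_zero n3 n1)]; linear_combination h1
  have e3 : x^((i+1)*(μ+1)) = x^(i*(μ+2)) * x^(μ+2) / (x^i * x) := by
    rw [eq_div_iff (mul_ne_zero n3 h0), ← pow_succ, ← pow_add, ← pow_add]
    congr 1; ring
  have e4 : x^(μ+2) = x^(μ+1) * x := by rw [← pow_succ]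
  have n10 : x^(i*(μ+2)) ≠ 0 := pow_ne_zero _ h0
  rw [hh, W, show μ+1+1 = μ+2 by ring, e1, e3]
  have e5 : x^i * x - x^(μ+2) = x * (x^i - x^(μ+1)) := by rw [e4]; ring
  rw [e5]
  field_simp

end Pool.Agent.V11307.D8
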