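import Pool.Agent.V11307.D8.Sys

set_option autoImplicit false

/-!
# The expansion of the product
-/

namespace Pool.Agent.V11307.D8

open Finset

variable {K : Type*} [Field K] (x : K)

/-- `(1 - x^m)^2 h_{i+1}(m)` -/
def rr (i : ℕ) : ℕ → K
  | 0 => 0
  | μ+1 => (1 - x^(μ+1))^2 * hh x i μ

/-- `2 c_m c_{m-1} / x^{mn}` -/
def pv (ν : ℕ) : ℕ → K
  | 0 => 0
  | m+1 => 2 * c x ν (m+1) * c x ν m / x^((m+1)*(ν+1))

/-- `2 c_{m-1}^2 / x^{mn}` -/
def rv (ν : ℕ) : ℕ → K
  | 0 => 0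
  | m+1 => 2 * (c x ν m)^2 / x^((m+1)*(ν+1))

variable {x} (hx : ∀ i : ℕ, 1 - x^(i+1) ≠ 0) (h0 : x ≠ 0)

include hx h0

lemma L6' (i μ : ℕ) : rr x i μ = W x i μ * ((x - x^(μ+1)) * (x^i - x^(μ+1)) *
    (x^i * x - x^(μ+1)) / (x * (x^i * x^(μ+1)))) := by
  cases μ with
  | zero => simp [rr]
  | succ μ =>
    have h := L6 hx h0 i μ
    have n3 : x^i ≠ 0 := pow_ne_zero _ h0
    have n9 : x^(μ+2) ≠ 0 := pow_ne_zero _ h0
    have e : x - x^(μ+1+1) = x * (1 - x^(μ+1)) := by rw [pow_succ x (μ+1)]; ring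
    have e2 : rr x i (μ+1) = (1 - x^(μ+1)) * (hh x i μ * (1 - x^(μ+1))) := by rw [rr]; ring
    rw [e2, h, e, show μ+1+1 = μ+2 by ring]
    field_simp

lemma L5' (i μ : ℕ) : rr x i (μ+2) = W x i μ * ((1 - x^(μ+1) * x) * ((1 - x^(μ+1) * x^i) *
    (1 - x^(μ+1) * x^i * x) / (x^(μ+1) * x^i * x))) := by
  have h := L5 hx h0 i μ
  have e2 : rr x i (μ+2) = (1 - x^(μ+1) * x) * (hh x i (μ+1) * (1 - x^(μ+1) * x)) := by
    rw [show μ+2 = (μ+1)+1 by ring, rr, pow_succ x (μ+1)]; ring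
  rw [e2, h]
  ring

lemma L7 (i μ : ℕ) : rr x i (μ+1) = W x i μ * ((1 - x^(μ+1)) * (x^i - x^(μ+1)) * (1 - x^(μ+1) * x^i) /
    (x^i * x^(μ+1))) := by
  have h1 := G_upper' hx μ i
  have h3 := G_up hx μ i
  have n1 := hx μ
  have n2 : x^(i*(μ+1)) ≠ 0 := pow_ne_zero _ h0
  have n3 : x^i ≠ 0 := pow_ne_zero _ h0
  have n4 : x^(μ+1) ≠ 0 := pow_ne_zero _ h0
  rw [pow_add x (μ+1) i] at h3
  have e1 : G x μ i = (x^i - x^(μ+1)) * G x (μ+1) i / (x^i * (1 - x^(μ+1))) := by
    rw [eq_div_iff (mul_ne_zero n3 n1)]; linear_combination h1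
  have e2 : G x (μ+1+i) i = (1 - x^(μ+1) * x^i) * G x (μ+i) i / (1 - x^(μ+1)) := by
    rw [eq_div_iff n1]; linear_combination h3
  rw [rr, hh, W, e1, e2, show (i+1)*(μ+1) = i*(μ+1)+(μ+1) by ring, pow_add x (i*(μ+1))]
  field_simp

/-- the difference of the basis -/
lemma ee_diff (i μ : ℕ) : ee x (i+1) (μ+1) - ee x (i+1) μ =
    (1 + x^(μ+1)) / ((1 - x^(μ+1)) * (1 - x^(i+1))) * rr x i (μ+1) := by
  rw [L3 hx h0, L4 hx h0, L7 hx h0]
  have n1 := hx μ
  have n3 : x^i ≠ 0 := pow_ne_zero _ h0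
  have n4 : x^(μ+1) ≠ 0 := pow_ne_zero _ h0
  have n5 := hx i
  rw [pow_succ x i] at n5 ⊢
  generalize x^(μ+1) = M at *
  generalize x^i = J at *
  field_simp
  ring

/-- the coefficient identity -/
lemma coef (i μ : ℕ) : ga x (i+1) / (1 - x^(i+1))^2 * (rr x i (μ+2) - rr x i μ) =
    (1 + x^(μ+1)) / (1 - x^(μ+1)) * (ga x (i+1) * (1 - x^(i+1)) / x^(i+1) * (ee x (i+1) (μ+1) + ee x (i+1) μ)
      + ga x i * (1 - x^i) * (ee x i (μ+1) + ee x i μ)) := by
  rw [L3 hx h0, L4 hx h0, L5' hx h0, L6' hx h0, L1 hx h0, L2 hx h0, ga]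
  have n1 := hx μ
  have n3 : x^i ≠ 0 := pow_ne_zero _ h0
  have n4 : x^(μ+1) ≠ 0 := pow_ne_zero _ h0
  have n5 := hx i
  have n6 := hx (2*i)
  have e : x^(2*i+1) = x^i * x^i * x := by rw [← pow_add, ← pow_succ]; congr 1; ring
  rw [e] at n6 ⊢
  rw [pow_succ x i] at n5 ⊢
  generalize x^(μ+1) = M at *
  generalize x^i = J at *
  have n6' : 1 - J^2 * x ≠ 0 := by rwa [sq]
  field_simp
  ring

/-- the recurrence of `h` in `j` -/
lemma hrec (i ν : ℕ) : (1 - x^(ν+1))^2 / x^(ν+1) * hh x i ν =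
    (1 - x^(i+1))^2 * (hh x (i+1) ν + hh x i ν / x^(i+1)) := by
  have h1 := G_lower' hx ν i
  have h2 := G_absorb hx (ν+1+i) i
  have n1 := hx ν
  have n2 : x^((i+1)*(ν+1)) ≠ 0 := pow_ne_zero _ h0
  have n3 : x^i ≠ 0 := pow_ne_zero _ h0
  have n4 : x^(ν+1) ≠ 0 := pow_ne_zero _ h0
  have n5 := hx i
  have e4 : x^ν = x^(ν+1) / x := by rw [eq_div_iff h0, pow_succ]
  have e5 : x^(ν+1+i+1) = x^(ν+1) * x^i * x := by rw [pow_succ, pow_add]
  rw [e5] at h2
  rw [e4] at h1
  rw [pow_succ x i] at h1 h2 n5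
  have e1 : G x ν (i+1) = (x^i - x^(ν+1) / x) * G x ν i / (x^i * (1 - x^i * x)) := by
    rw [eq_div_iff (mul_ne_zero n3 n5)]; linear_combination h1
  have e2 : G x (ν+1+(i+1)) (i+1) = (1 - x^(ν+1) * x^i * x) * G x (ν+1+i) i / (1 - x^i * x) := by
    rw [show ν+1+(i+1) = ν+1+i+1 by ring, eq_div_iff n5]; linear_combination h2
  rw [hh, hh, e1, e2, show (i+1+1)*(ν+1) = (i+1)*(ν+1)+(ν+1) by ring, pow_add x ((i+1)*(ν+1)), pow_succ x i]
  generalize G x (ν+1+i) i = g1
  generalize G x ν i = g2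
  generalize x^(ν+1) = M at *
  generalize x^((i+1)*(ν+1)) = Z at *
  generalize x^i = J at *
  field_simp
  ring

omit h0 in
lemma hh_zero (i ν : ℕ) (h : ν < i) : hh x i ν = 0 := by
  rw [hh, G_eq_zero x ν i h]; simp

omit h0 in
lemma ee_zero (i m : ℕ) (h : m < i) : ee x i m = 0 := by
  rw [ee, G_eq_zero x m i h]; simp

omit h0 in
lemma ee_zero' (m : ℕ) : ee x 0 m = 1 := by
  simp [ee]

/-- the system -/
lemma sys (ν N : ℕ) (hN : ν + 1 ≤ N) : ∀ m : ℕ,
    pv x ν m = (1 - x^(ν+1)) * ∑ i ∈ range N, ga x (i+1) / (1 - x^(i+1)) * ee x (i+1) m * hh x i ν ∧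
    rv x ν m = ∑ i ∈ range N, ga x (i+1) / (1 - x^(i+1))^2 * rr x i m * hh x i ν ∧
    rv x ν (m+1) = ∑ i ∈ range N, ga x (i+1) / (1 - x^(i+1))^2 * rr x i (m+1) * hh x i ν := by
  intro m
  induction m with
  | zero =>
    refine ⟨?_, ?_, ?_⟩
    · rw [pv, sum_eq_zero]
      · ring
      · intro i _
        rw [ee_zero hx (i+1) 0 (by omega)]
        ring
    · rw [rv, sum_eq_zero]
      intro i _
      rw [rr]
      ring
    · obtain ⟨M, rfl⟩ : ∃ M, N = M+1 := ⟨N-1, by omega⟩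
      rw [sum_range_succ', sum_eq_zero]
      · rw [rv, c_zero _ hx, rr, hh, hh]
        have n1 := hx 0
        rw [zero_add, pow_one] at n1
        have n4 : x^(ν+1) ≠ 0 := pow_ne_zero _ h0
        simp only [ga, mul_zero, zero_add, pow_zero, pow_one, G_zero, mul_one, one_mul]
        field_simp
        ring
      · intro i _
        rw [rr, hh_zero hx (i+1) 0 (by omega)]
        ring
  | succ m ih =>
    obtain ⟨h1, h2, h3⟩ := ih
    have nm := hx m
    have n4 : x^(ν+1) ≠ 0 := pow_ne_zero _ h0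
    have nc : (1 - x^(m+1)) * (c x ν (m+1) - x^(ν+1) * (if m = 0 then 0 else c x ν (m-1))) =
        (1 - x^(ν+1)) * (1 + x^(m+1)) * c x ν m := by
      cases m with
      | zero =>
        have := c_one hx ν
        simp only [zero_add, pow_one, if_true, mul_zero, sub_zero, c_zero _ hx, mul_one]
        exact this
      | succ m =>
        have := c_rec hx ν m
        rw [if_neg (by omega), Nat.add_sub_cancel, show m+1+1 = m+2 by ring]
        exact this
    have p1 : pv x ν (m+1) = pv x ν m + (1 - x^(ν+1)) * (1 + x^(m+1)) / (1 - x^(m+1)) * rv x ν (m+1) := by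
      rw [pv, rv]
      cases m with
      | zero =>
        simp only [if_true, mul_zero, sub_zero] at nc
        rw [pv]
        have : c x ν (0+1) = (1 - x^(ν+1)) * (1 + x^(0+1)) * c x ν 0 / (1 - x^(0+1)) := by
          rw [eq_div_iff nm]; linear_combination nc
        rw [this]
        ring
      | succ m =>
        rw [if_neg (by omega), Nat.add_sub_cancel] at nc
        rw [pv]
        have : c x ν (m+1+1) = (1 - x^(ν+1)) * (1 + x^(m+1+1)) * c x ν (m+1) / (1 - x^(m+1+1)) +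
            x^(ν+1) * c x ν m := by
          field_simp
          linear_combination nc
        rw [this]
        have n8 : x^((m+1)*(ν+1)) ≠ 0 := pow_ne_zero _ h0
        rw [show (m+1+1)*(ν+1) = (m+1)*(ν+1)+(ν+1) by ring, pow_add x ((m+1)*(ν+1))]
        field_simp
        ring
    have p2 : rv x ν (m+1+1) = rv x ν m + (1 - x^(ν+1)) * (1 + x^(m+1)) / (1 - x^(m+1)) / x^(ν+1) *
        (pv x ν (m+1) + pv x ν m) := by
      rw [rv, pv]
      have n8 : x^((m+1)*(ν+1)) ≠ 0 := pow_ne_zero _ h0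
      cases m with
      | zero =>
        simp only [if_true, mul_zero, sub_zero] at nc
        rw [pv, rv]
        have : c x ν (0+1) = (1 - x^(ν+1)) * (1 + x^(0+1)) * c x ν 0 / (1 - x^(0+1)) := by
          rw [eq_div_iff nm]; linear_combination nc
        rw [this]
        rw [show (0+1+1)*(ν+1) = (0+1)*(ν+1)+(ν+1) by ring, pow_add x ((0+1)*(ν+1))]
        field_simp
        ring
      | succ m =>
        rw [if_neg (by omega), Nat.add_sub_cancel] at nc
        rw [pv, rv]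
        have n9 : x^((m+1)*(ν+1)) ≠ 0 := pow_ne_zero _ h0
        rw [show (m+1+1+1)*(ν+1) = (m+1)*(ν+1)+(ν+1)+(ν+1) by ring, pow_add x ((m+1)*(ν+1)+(ν+1)),
          show (m+1+1)*(ν+1) = (m+1)*(ν+1)+(ν+1) by ring, pow_add x ((m+1)*(ν+1))]
        have : c x ν (m+1+1) = (1 - x^(ν+1)) * (1 + x^(m+1+1)) * c x ν (m+1) / (1 - x^(m+1+1)) +
            x^(ν+1) * c x ν m := by
          field_simp
          linear_combination nc
        rw [this]
        generalize c x ν (m+1) = c1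
        generalize c x ν m = c0
        generalize x^((m+1)*(ν+1)) = Z at *
        generalize x^(ν+1) = V at *
        generalize x^(m+1+1) = U at *
        field_simp
        ring
    have q1 : pv x ν (m+1) = (1 - x^(ν+1)) * ∑ i ∈ range N, ga x (i+1) / (1 - x^(i+1)) * ee x (i+1) (m+1) * hh x i ν := by
      rw [p1, h1, h3, mul_sum, mul_sum, mul_sum, ← sum_add_distrib]
      apply sum_congr rfl
      intro i _
      have h5 := ee_diff hx h0 i m
      have h6 : ee x (i+1) (m+1) = ee x (i+1) m + (1 + x^(m+1)) / ((1 - x^(m+1)) * (1 - x^(i+1))) * rr x i (m+1) := by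
        linear_combination h5
      rw [h6]
      have n5 := hx i
      field_simp
    refine ⟨q1, h3, ?_⟩
    rw [p2, h2, q1, h1]
    have e1 : (1 - x^(ν+1)) * (1 + x^(m+1)) / (1 - x^(m+1)) / x^(ν+1) *
        ((1 - x^(ν+1)) * ∑ i ∈ range N, ga x (i+1) / (1 - x^(i+1)) * ee x (i+1) (m+1) * hh x i ν +
          (1 - x^(ν+1)) * ∑ i ∈ range N, ga x (i+1) / (1 - x^(i+1)) * ee x (i+1) m * hh x i ν) =
        (1 + x^(m+1)) / (1 - x^(m+1)) * (∑ i ∈ range N, ga x (i+1) * (1 - x^(i+1)) / x^(i+1) *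
          (ee x (i+1) (m+1) + ee x (i+1) m) * hh x i ν +
          ∑ i ∈ range N, ga x (i+1) * (1 - x^(i+1)) * (ee x (i+1) (m+1) + ee x (i+1) m) * hh x (i+1) ν) := by
      rw [mul_sum, mul_sum, ← sum_add_distrib, ← sum_add_distrib, mul_sum, mul_sum]
      apply sum_congr rfl
      intro i _
      have h7 := hrec hx h0 i ν
      have n5 := hx i
      have n6 : x^(i+1) ≠ 0 := pow_ne_zero _ h0
      have h8 : hh x (i+1) ν = (1 - x^(ν+1))^2 / x^(ν+1) * hh x i ν / (1 - x^(i+1))^2 - hh x i ν / x^(i+1) := by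
        rw [h7]
        field_simp
        ring
      rw [h8]
      generalize x^(i+1) = J at *
      generalize x^(ν+1) = V at *
      field_simp
      ring
    have e2 : ∑ i ∈ range N, ga x (i+1) * (1 - x^(i+1)) * (ee x (i+1) (m+1) + ee x (i+1) m) * hh x (i+1) ν =
        ∑ i ∈ range N, ga x i * (1 - x^i) * (ee x i (m+1) + ee x i m) * hh x i ν := by
      have h9 := sum_range_succ' (fun i => ga x i * (1 - x^i) * (ee x i (m+1) + ee x i m) * hh x i ν) N
      rw [sum_range_succ, hh_zero hx N ν (by omega)] at h9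
      simp only [pow_zero, sub_self, mul_zero, zero_mul, add_zero] at h9
      exact h9.symm
    rw [e1, e2, ← sum_add_distrib, mul_sum, ← sum_add_distrib]
    apply sum_congr rfl
    intro i _
    have h10 := coef hx h0 i m
    rw [show m+1+1 = m+2 by ring]
    linear_combination (-hh x i ν) * h10

/-- **the expansion of the product of two `q`-Delannoy numbers** -/
theorem expand (m N : ℕ) : ∀ n ≤ N, a x n m * b x n m / x^(m*n) =
    1 + ∑ i ∈ range N, ga x (i+1) * ee x (i+1) m * ee x (i+1) n := by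
  intro n
  induction n with
  | zero =>
    intro _
    rw [a_zero', b_zero', sum_eq_zero]
    · simp
    · intro i _
      rw [ee_zero hx (i+1) 0 (by omega)]
      ring
  | succ ν ih =>
    intro hN
    have h1 := ih (by omega)
    have h2 := (sys hx h0 ν N hN m).1
    have e1 : a x (ν+1) m * b x (ν+1) m / x^(m*(ν+1)) = a x ν m * b x ν m / x^(m*ν) + (1 + x^(ν+1)) * pv x ν m := by
      cases m with
      | zero => rw [a_zero hx, b_zero hx, a_zero hx, b_zero hx, pv]; simp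
      | succ m =>
        rw [a_c, b_c hx, b_c' hx, pv]
        have h3 := a_c' hx ν m
        have n1 : x^(m+1) ≠ 0 := pow_ne_zero _ h0
        have n2 : x^((m+1)*ν) ≠ 0 := pow_ne_zero _ h0
        have : a x ν (m+1) = (c x ν (m+1) - c x ν m) / x^(m+1) := by
          rw [eq_div_iff n1]; linear_combination h3
        rw [this, show (m+1)*(ν+1) = (m+1)*ν+(m+1) by ring, pow_add x ((m+1)*ν)]
        field_simp
        ring
    rw [e1, h1, h2, mul_sum, mul_sum, add_assoc, ← sum_add_distrib]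
    congr 1
    apply sum_congr rfl
    intro i _
    have h5 := ee_diff hx h0 i ν
    have n5 := hx i
    have n6 := hx ν
    have h6 : ee x (i+1) (ν+1) = ee x (i+1) ν + (1 + x^(ν+1)) * (1 - x^(ν+1)) / (1 - x^(i+1)) * hh x i ν := by
      rw [rr] at h5
      field_simp at h5 ⊢
      linear_combination h5
    rw [h6]
    field_simp

end Pool.Agent.V11307.D8
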